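import Pool.Agent.H979.BK.Stm

/-!
# Project BK (helper979), task POIS: Chebyshev's inequality for the Poisson distribution
-/

set_option autoImplicit false

namespace Pool.Agent.H981

open Filter Topology Finset Pool.Agent.H979.BK

/-- the Poisson weights -/
noncomputable def pw (t : ℝ) (m : ℕ) : ℝ := Real.exp (-t) * t ^ m / (m.factorial : ℝ)

lemma pw_nonneg {t : ℝ} (ht : 0 ≤ t) (m : ℕ) : 0 ≤ pw t m := by
  unfold pw
  positivity

lemma pw_hasSum (t : ℝ) : HasSum (pw t) 1 := by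
  have h1 : HasSum (fun m : ℕ => t ^ m / (m.factorial : ℝ)) (Real.exp t) := by
    rw [Real.exp_eq_exp_ℝ]
    exact NormedSpace.expSeries_div_hasSum_exp t
  have h2 := h1.mul_left (Real.exp (-t))
  rw [← Real.exp_add, neg_add_cancel, Real.exp_zero] at h2
  have h3 : pw t = fun m : ℕ => Real.exp (-t) * (t ^ m / (m.factorial : ℝ)) := by
    funext m
    unfold pw
    ring
  rw [h3]
  exact h2

lemma pw_succ (t : ℝ) (m : ℕ) : pw t (m + 1) * ((m + 1 : ℕ) : ℝ) = t * pw t m := by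
  unfold pw
  have h1 : (m.factorial : ℝ) ≠ 0 := by exact_mod_cast m.factorial_ne_zero
  have h2 : ((m + 1 : ℕ) : ℝ) ≠ 0 := by exact_mod_cast m.succ_ne_zero
  rw [Nat.factorial_succ, Nat.cast_mul, pow_succ]
  field_simp

lemma pw_mean (t : ℝ) : HasSum (fun m : ℕ => pw t m * (m : ℝ)) t := by
  have h1 : HasSum (fun m : ℕ => pw t (m + 1) * ((m + 1 : ℕ) : ℝ)) (t - ∑ i ∈ range 1, pw t i * (i : ℝ)) := by
    have h2 := (pw_hasSum t).mul_left t
    rw [mul_one] at h2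
    have h3 : (fun m : ℕ => pw t (m + 1) * ((m + 1 : ℕ) : ℝ)) = fun m => t * pw t m :=
      funext (pw_succ t)
    rw [h3]
    simpa using h2
  exact (hasSum_nat_add_iff' 1).1 h1

lemma pw_second (t : ℝ) : HasSum (fun m : ℕ => pw t m * ((m : ℝ) * ((m : ℝ) - 1))) (t ^ 2) := by
  have h1 : HasSum (fun m : ℕ => pw t (m + 1) * (((m + 1 : ℕ) : ℝ) * (((m + 1 : ℕ) : ℝ) - 1)))
      (t ^ 2 - ∑ i ∈ range 1, pw t i * ((i : ℝ) * ((i : ℝ) - 1))) := by
    have h2 := (pw_mean t).mul_left t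
    have h3 : (fun m : ℕ => pw t (m + 1) * (((m + 1 : ℕ) : ℝ) * (((m + 1 : ℕ) : ℝ) - 1))) =
        fun m => t * (pw t m * (m : ℝ)) := by
      funext m
      have h4 := pw_succ t m
      have h5 : (((m + 1 : ℕ) : ℝ) - 1) = m := by push_cast; ring
      rw [h5, ← mul_assoc, h4]
      ring
    rw [h3]
    have h6 : t ^ 2 - ∑ i ∈ range 1, pw t i * ((i : ℝ) * ((i : ℝ) - 1)) = t * t := by
      simp
      ring
    rw [h6]
    exact h2
  exact (hasSum_nat_add_iff' 1).1 h1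

lemma pw_var (t : ℝ) : HasSum (fun m : ℕ => pw t m * ((m : ℝ) - t) ^ 2) t := by
  have h1 := ((pw_second t).add ((pw_mean t).mul_left (1 - 2 * t))).add ((pw_hasSum t).mul_left (t ^ 2))
  have h2 : t ^ 2 + (1 - 2 * t) * t + t ^ 2 * 1 = t := by ring
  rw [h2] at h1
  have h3 : (fun m : ℕ => pw t m * ((m : ℝ) - t) ^ 2) = fun m : ℕ =>
      pw t m * ((m : ℝ) * ((m : ℝ) - 1)) + (1 - 2 * t) * (pw t m * (m : ℝ)) + t ^ 2 * pw t m := by
    funext m
    ring
  rw [h3]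
  exact h1

theorem bk_pois : S_POIS := by
  intro t a ht ha
  have hs := pw_hasSum t
  refine ⟨hs.summable, hs.tsum_eq, ?_⟩
  have hv := (pw_var t).div_const (a ^ 2)
  have hle : ∀ m : ℕ, Real.exp (-t) * t ^ m / (m.factorial : ℝ) *
      (if a ≤ |(m : ℝ) - t| then 1 else 0) ≤ pw t m * ((m : ℝ) - t) ^ 2 / a ^ 2 := by
    intro m
    have h0 := pw_nonneg ht m
    have ha2 : 0 < a ^ 2 := by positivity
    change pw t m * (if a ≤ |(m : ℝ) - t| then 1 else 0) ≤ _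
    split_ifs with h
    · rw [mul_one, mul_div_assoc]
      have h1 : 1 ≤ ((m : ℝ) - t) ^ 2 / a ^ 2 := by
        rw [one_le_div ha2, ← sq_abs ((m : ℝ) - t)]
        exact pow_le_pow_left₀ ha.le h 2
      nlinarith
    · rw [mul_zero]
      positivity
  have hnn : ∀ m : ℕ, 0 ≤ Real.exp (-t) * t ^ m / (m.factorial : ℝ) *
      (if a ≤ |(m : ℝ) - t| then 1 else 0) := by
    intro m
    have h0 := pw_nonneg ht m
    change 0 ≤ pw t m * (if a ≤ |(m : ℝ) - t| then 1 else 0)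
    split_ifs
    · linarith
    · simp
  have hsum := Summable.of_nonneg_of_le hnn hle hv.summable
  calc ∑' m : ℕ, Real.exp (-t) * t ^ m / (m.factorial : ℝ) * (if a ≤ |(m : ℝ) - t| then 1 else 0)
      ≤ ∑' m : ℕ, pw t m * ((m : ℝ) - t) ^ 2 / a ^ 2 := hsum.tsum_le_tsum hle hv.summable
    _ = t / a ^ 2 := hv.tsum_eq

end Pool.Agent.H981
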